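import Pool.Agent.Lib_helper40.Kal.Main3

/-!
MP_716236_co, part E: flag counting.
-/

set_option autoImplicit false
set_option linter.unusedSectionVars false

namespace Pool.Agent.KF.E

open Finset Submodule Pool.Agent.Lib_helper40.Kal

variable {ι : Type} [DecidableEq ι] {V : Type} [AddCommGroup V] [Module ℝ V]

/-- The inequality `f_k ≤ (k+2) f_{k+1}` in dimension `2k+1`. -/
def WU : Prop := ∀ (k : ℕ) (ι : Type) [DecidableEq ι] (V : Type) [AddCommGroup V] [Module ℝ V]
  (p : ι → V) (s : Finset ι), IsFace p s ∅ → rk p s = 2 * k + 2 →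
    (facesR p s (k + 1)).card ≤ (k + 2) * (facesR p s (k + 2)).card

/-- iterated chain operators -/
noncomputable def DL (p : ι → V) (s : Finset ι) :
    List ℕ → (Finset ι → ℝ) → (Finset ι → ℝ)
  | [], g => g
  | r :: L, g => U p s r (DL p s L g)

variable {p : ι → V} {s : Finset ι}

lemma DL_nil (g : Finset ι → ℝ) : DL p s [] g = g := rfl

lemma DL_cons (r : ℕ) (L : List ℕ) (g : Finset ι → ℝ) :
    DL p s (r :: L) g = U p s r (DL p s L g) := rfl

lemma DL_append (L L' : List ℕ) (g : Finset ι → ℝ) :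
    DL p s (L ++ L') g = DL p s L (DL p s L' g) := by
  induction L with
  | nil => rfl
  | cons r L ih => rw [List.cons_append, DL_cons, DL_cons, ih]

lemma U_nn {r : ℕ} {g : Finset ι → ℝ} (hg : ∀ F, 0 ≤ g F) (F : Finset ι) :
    0 ≤ U p s r g F := U_nonneg (fun G _ => hg G) F

lemma DL_nn {g : Finset ι → ℝ} (hg : ∀ F, 0 ≤ g F) (L : List ℕ) (F : Finset ι) :
    0 ≤ DL p s L g F := by
  induction L generalizing F with
  | nil => exact hg F
  | cons r L ih => exact U_nn ih F

lemma U_mono {r : ℕ} {g g' : Finset ι → ℝ} {F : Finset ι}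
    (h : ∀ H ∈ facesR p s r, F ⊆ H → g H ≤ g' H) : U p s r g F ≤ U p s r g' F := by
  rw [U_apply, U_apply]
  apply Finset.sum_le_sum
  intro H hH
  rw [mem_filter] at hH
  exact h H hH.1 hH.2

lemma U_smul' {r : ℕ} (C : ℝ) (g : Finset ι → ℝ) (F : Finset ι) :
    U p s r (fun H => C * g H) F = C * U p s r g F := by
  rw [U_apply, U_apply, mul_sum]

/-- a chain can be refined by one face -/
lemma ins {F : Finset ι} (hF : IsFace p s F) {r b : ℕ} (hr : rk p F ≤ r) (hrb : r ≤ b)
    {g : Finset ι → ℝ} (hg : ∀ F, 0 ≤ g F) : U p s b g F ≤ U p s r (U p s b g) F := by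
  rw [U_U, U_apply]
  apply Finset.sum_le_sum
  intro G hG
  rw [mem_filter, mem_facesR] at hG
  obtain ⟨⟨hG1, hG2⟩, hFG⟩ := hG
  obtain ⟨H, hH, hFH, hHr⟩ := exists_face_rk ((isFace_restrict hG1).2 ⟨hF, hFG⟩) r hr
    (by omega)
  have h1 : H ∈ mid p s F G r := by
    rw [mem_mid]
    have := (isFace_restrict hG1).1 hH
    exact ⟨⟨this.1, hHr⟩, hFH, this.2⟩
  have h2 : 1 ≤ (mid p s F G r).card := Finset.card_pos.2 ⟨H, h1⟩
  have h3 : (1 : ℝ) ≤ ((mid p s F G r).card : ℝ) := by exact_mod_cast h2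
  calc g G = 1 * g G := (one_mul _).symm
    _ ≤ _ := mul_le_mul_of_nonneg_right h3 (hg G)

/-- a chain can be refined by all faces between -/
lemma fill (n : ℕ) : ∀ {F : Finset ι} {a : ℕ} {g : Finset ι → ℝ}, IsFace p s F → rk p F ≤ a →
    (∀ F, 0 ≤ g F) → U p s a (U p s (a + n) g) F ≤
      DL p s (List.range' a n) (U p s (a + n) g) F := by
  induction n with
  | zero =>
    intro F a g _ _ _
    rw [add_zero, U_U_self]
    exact le_refl _
  | succ n ih =>
    intro F a g hF hr hg
    rw [List.range'_succ, DL_cons]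
    apply U_mono
    intro H hH _
    rw [mem_facesR] at hH
    have h1 := ih (F := H) (a := a + 1) (g := g) hH.1 (by omega) hg
    have h2 : a + 1 + n = a + (n + 1) := by ring
    rw [h2] at h1
    refine le_trans ?_ h1
    exact ins hH.1 (by omega) (by omega) hg

/-- positivity: there are complete chains -/
lemma one_le_DL (n : ℕ) : ∀ {F : Finset ι} {a : ℕ}, IsFace p s F → rk p F ≤ a →
    a + n ≤ rk p s + 1 → 1 ≤ DL p s (List.range' a n) (fun _ => 1) F := by
  induction n with
  | zero => intro F a _ _ _; exact le_refl _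
  | succ n ih =>
    intro F a hF hr ha
    rw [List.range'_succ, DL_cons, U_apply]
    obtain ⟨H, hH, hFH, hHr⟩ := exists_face_rk hF a hr (by omega)
    have hmem : H ∈ (facesR p s a).filter (fun H => F ⊆ H) := by
      rw [mem_filter, mem_facesR]; exact ⟨⟨hH, hHr⟩, hFH⟩
    have h1 := ih (F := H) (a := a + 1) hH (by omega) (by omega)
    refine h1.trans ?_
    exact Finset.single_le_sum (f := DL p s (List.range' (a + 1) n) fun _ => 1)
      (fun G _ => DL_nn (fun _ => zero_le_one) _ G) hmem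

lemma U_quot {F : Finset ι} (hF : IsFace p s F) (r : ℕ) (g : Finset ι → ℝ) {J : Finset ι}
    (hJ : J ⊆ s \ F) :
    U (qf p F) (s \ F) r (fun K => g (F ∪ K)) J = U p s (rk p F + r) g (F ∪ J) := by
  rw [U_apply, U_apply]
  have hFs := hF.1
  apply Finset.sum_bij' (fun K _ => F ∪ K) (fun H _ => H \ F)
  · intro K hK
    rw [mem_filter, mem_facesR, isFace_quot hFs] at hK
    obtain ⟨⟨⟨h1, h2⟩, h3⟩, h4⟩ := hK
    rw [mem_filter, mem_facesR]
    refine ⟨⟨h2, ?_⟩, union_subset_union (Subset.refl _) h4⟩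
    have := rk_quot p F K
    omega
  · intro H hH
    rw [mem_filter, mem_facesR] at hH
    obtain ⟨⟨h1, h2⟩, h3⟩ := hH
    have hFH : F ⊆ H := subset_union_left.trans h3
    rw [mem_filter, mem_facesR, isFace_quot hFs, union_sdiff_of_subset hFH]
    refine ⟨⟨⟨sdiff_subset_sdiff h1.1 (Subset.refl _), h1⟩, ?_⟩, ?_⟩
    · have := rk_quot p F (H \ F)
      rw [union_sdiff_of_subset hFH] at this
      omega
    · intro i hi
      rw [mem_sdiff]
      exact ⟨h3 (mem_union_right _ hi), (mem_sdiff.1 (hJ hi)).2⟩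
  · intro K hK
    rw [mem_filter, mem_facesR, isFace_quot hFs] at hK
    rw [union_sdiff_left]
    apply sdiff_eq_self_of_disjoint
    rw [disjoint_left]
    intro i hi hiK
    exact (mem_sdiff.1 (hK.1.1.1 hi)).2 hiK
  · intro H hH
    rw [mem_filter] at hH
    exact union_sdiff_of_subset (subset_union_left.trans hH.2)
  · intro K hK
    rfl

lemma U_congr {r : ℕ} {g g' : Finset ι → ℝ} {F : Finset ι}
    (h : ∀ H ∈ facesR p s r, g H = g' H) : U p s r g F = U p s r g' F := by
  rw [U_apply, U_apply]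
  exact Finset.sum_congr rfl fun H hH => h H (mem_filter.1 hH).1

lemma DL_quot {F : Finset ι} (hF : IsFace p s F) (L : List ℕ) (g : Finset ι → ℝ) :
    ∀ {J : Finset ι}, J ⊆ s \ F →
    DL (qf p F) (s \ F) L (fun K => g (F ∪ K)) J =
      DL p s (L.map (fun r => rk p F + r)) g (F ∪ J) := by
  induction L with
  | nil => intro J _; rfl
  | cons r L ih =>
    intro J hJ
    rw [List.map_cons, DL_cons, DL_cons, ← U_quot hF r _ hJ]
    apply U_congr
    intro H hH
    rw [mem_facesR] at hH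
    exact ih hH.1.1

lemma map_range' (c a n : ℕ) : (List.range' a n).map (fun r => c + r) = List.range' (c + a) n := by
  induction n generalizing a with
  | zero => rfl
  | succ n ih =>
    rw [List.range'_succ, List.map_cons, List.range'_succ, ih]
    rfl

lemma DL_quot_range {F : Finset ι} {c : ℕ} (hF : F ∈ facesR p s c) (a n : ℕ) :
    DL (qf p F) (s \ F) (List.range' a n) (fun _ => 1) ∅ =
      DL p s (List.range' (c + a) n) (fun _ => 1) F := by
  rw [mem_facesR] at hF
  have h := DL_quot hF.1 (List.range' a n) (fun _ => (1 : ℝ)) (J := ∅) (empty_subset _)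
  rw [map_range', union_empty, hF.2] at h
  exact h

/-- the inequality `WU` in the faces of rank `2k+2` -/
lemma wu_step (hWU : WU) {k : ℕ} (h0 : IsFace p s ∅) {g : Finset ι → ℝ} (hg : ∀ F, 0 ≤ g F) :
    U p s (k + 1) (U p s (2 * k + 2) g) ∅ ≤
      (k + 2 : ℝ) * U p s (k + 2) (U p s (2 * k + 2) g) ∅ := by
  rw [U_U, U_U, mul_sum]
  apply Finset.sum_le_sum
  intro T hT
  rw [mem_filter, mem_facesR] at hT
  obtain ⟨⟨hT1, hT2⟩, -⟩ := hT
  have hmid : ∀ r, mid p s ∅ T r = facesR p T r := by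
    intro r
    ext H
    rw [mem_mid, facesR_restrict hT1, mem_facesR]
    simp
  rw [hmid, hmid]
  have h1 := hWU k ι V p T ((isFace_restrict hT1).2 ⟨h0, empty_subset _⟩) hT2
  have h2 : ((facesR p T (k + 1)).card : ℝ) ≤ (k + 2) * ((facesR p T (k + 2)).card : ℝ) := by
    exact_mod_cast h1
  calc ((facesR p T (k + 1)).card : ℝ) * g T
      ≤ ((k + 2) * ((facesR p T (k + 2)).card : ℝ)) * g T :=
        mul_le_mul_of_nonneg_right h2 (hg T)
    _ = _ := by ring

/-- `A(k)` for families of rank `k + m + 1` -/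
def AA (k m : ℕ) : Prop := ∃ C : ℝ, 0 ≤ C ∧ ∀ (ι : Type) [DecidableEq ι] (V : Type)
  [AddCommGroup V] [Module ℝ V] (p : ι → V) (s : Finset ι), IsFace p s ∅ →
    rk p s = k + m + 1 →
    DL p s (List.range' 1 (k + m)) (fun _ => 1) ∅ ≤
      C * DL p s (List.range' (k + 1) m) (fun _ => 1) ∅

lemma AA_zero (m : ℕ) : AA 0 m := by
  refine ⟨1, zero_le_one, fun ι _ V _ _ p s _ _ => ?_⟩
  rw [one_mul, zero_add, zero_add]

lemma AA_step (hWU : WU) {k m : ℕ} (h1 : AA k (k + 1 + (m + 1))) (h2 : AA k (m + 1)) :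
    AA (k + 1) (k + (m + 1)) := by
  obtain ⟨C, hC, h1⟩ := h1
  obtain ⟨C', hC', h2⟩ := h2
  refine ⟨C * (C' * (k + 2)), by positivity, fun ι _ V _ _ p s h0 hs => ?_⟩
  have e1 := h1 ι V p s h0 (by omega)
  have e2 : k + 1 + (k + (m + 1)) = k + (k + 1 + (m + 1)) := by ring
  rw [e2]
  refine e1.trans ?_
  have e3 : k + 1 + (m + 1) = (k + (m + 1)) + 1 := by ring
  rw [e3, List.range'_succ, DL_cons]
  -- quotient step
  have q : U p s (k + 1) (DL p s (List.range' (k + 1 + 1) (k + (m + 1))) fun _ => 1) ∅ ≤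
      U p s (k + 1) (fun F => C' * DL p s (List.range' (2 * k + 2) (m + 1)) (fun _ => 1) F) ∅ := by
    apply U_mono
    intro F hF _
    have hF' := mem_facesR.1 hF
    have h3 := h2 ι (V ⧸ span ℝ (p '' (F : Set ι))) (qf p F) (s \ F)
      (pointed_interval hF'.1 (isFace_self p s) hF'.1.1) (by
        have := rk_interval (p := p) hF'.1.1
        rw [hF'.2, hs] at this
        omega)
    rw [DL_quot_range hF, DL_quot_range hF] at h3
    have e4 : k + 1 + (k + 1) = 2 * k + 2 := by ring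
    rw [e4] at h3
    exact h3
  rw [U_smul'] at q
  set g := DL p s (List.range' (2 * k + 3) m) (fun _ => (1 : ℝ)) with hgdef
  have hg : ∀ F, 0 ≤ g F := fun F => DL_nn (fun _ => zero_le_one) _ F
  have e5 : DL p s (List.range' (2 * k + 2) (m + 1)) (fun _ => (1 : ℝ)) = U p s (2 * k + 2) g := by
    rw [List.range'_succ, DL_cons]
  rw [e5] at q
  have w := wu_step hWU (k := k) h0 hg
  have f := fill (p := p) (s := s) k (F := ∅) (a := k + 2) (g := g) h0
    (by rw [rk_empty]; omega) hg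
  have e6 : k + 2 + k = 2 * k + 2 := by ring
  rw [e6] at f
  have e7 : DL p s (List.range' (k + 2) k) (U p s (2 * k + 2) g) =
      DL p s (List.range' (k + 1 + 1) (k + (m + 1))) (fun _ => 1) := by
    rw [← e5, ← DL_append]
    congr 1
    rw [← e6, List.range'_append_1]
  rw [e7] at f
  calc C * U p s (k + 1) (DL p s (List.range' (k + 1 + 1) (k + (m + 1))) fun _ => 1) ∅
      ≤ C * (C' * U p s (k + 1) (U p s (2 * k + 2) g) ∅) := mul_le_mul_of_nonneg_left q hC
    _ ≤ C * (C' * ((k + 2 : ℝ) * U p s (k + 2) (U p s (2 * k + 2) g) ∅)) :=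
        mul_le_mul_of_nonneg_left (mul_le_mul_of_nonneg_left w hC') hC
    _ ≤ C * (C' * ((k + 2 : ℝ) *
          DL p s (List.range' (k + 1 + 1) (k + (m + 1))) (fun _ => 1) ∅)) := by
        refine mul_le_mul_of_nonneg_left (mul_le_mul_of_nonneg_left
          (mul_le_mul_of_nonneg_left f (by positivity)) hC') hC
    _ = _ := by ring

theorem AA_all (hWU : WU) (k : ℕ) : ∃ M, ∀ m, M ≤ m → AA k m := by
  induction k with
  | zero => exact ⟨0, fun m _ => AA_zero m⟩
  | succ k ih =>
    obtain ⟨M, hM⟩ := ih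
    refine ⟨k + (M + 1), fun m hm => ?_⟩
    obtain ⟨m', rfl⟩ : ∃ m', m = k + (m' + 1) := ⟨m - k - 1, by omega⟩
    exact AA_step hWU (hM _ (by omega)) (hM _ (by omega))

/-- a face of rank `k+1` with few rays -/
theorem exists_small_face (hWU : WU) (k : ℕ) : ∃ (N n : ℕ), k + 2 ≤ n ∧
    ∀ (ι : Type) [DecidableEq ι] (V : Type) [AddCommGroup V] [Module ℝ V] (p : ι → V)
      (s : Finset ι), IsFace p s ∅ → rk p s = n →
      ∃ H ∈ facesR p s (k + 1), (facesR p H 1).card ≤ N := by
  rcases Nat.eq_zero_or_pos k with rfl | hk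
  · refine ⟨1, 2, le_refl _, fun ι _ V _ _ p s h0 hs => ?_⟩
    obtain ⟨H, hH, -, hHr⟩ := exists_face_rk h0 1 (by rw [rk_empty]; omega) (by omega)
    refine ⟨H, mem_facesR.2 ⟨hH, hHr⟩, ?_⟩
    have : facesR p H 1 = {H} := by
      have := facesR_top (p := p) (s := H)
      rwa [hHr] at this
    rw [this, card_singleton]
  · obtain ⟨M, hM⟩ := AA_all hWU k
    obtain ⟨C, hC, h⟩ := hM (M + 1) (by omega)
    obtain ⟨N, hN⟩ := exists_nat_ge C
    refine ⟨N, k + (M + 1) + 1, by omega, fun ι _ V _ _ p s h0 hs => ?_⟩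
    have h1 := h ι V p s h0 hs
    by_contra hcon
    push Not at hcon
    set g := DL p s (List.range' (k + 2) M) (fun _ => (1 : ℝ)) with hgdef
    have hg : ∀ F, 0 ≤ g F := fun F => DL_nn (fun _ => zero_le_one) _ F
    have e1 : DL p s (List.range' (k + 1) (M + 1)) (fun _ => (1 : ℝ)) = U p s (k + 1) g := by
      rw [List.range'_succ, DL_cons]
    have e2 : DL p s (List.range' 1 (k + (M + 1))) (fun _ => (1 : ℝ)) =
        DL p s (List.range' 1 k) (U p s (k + 1) g) := by
      rw [← e1, ← DL_append]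
      congr 1
      rw [add_comm k 1, List.range'_append_1]
    rw [e2, e1] at h1
    have f := fill (p := p) (s := s) k (F := ∅) (a := 1) (g := g) h0
      (by rw [rk_empty]; omega) hg
    rw [add_comm 1 k] at f
    have hpos : 0 < U p s (k + 1) g ∅ := by
      rw [← e1]
      refine lt_of_lt_of_le zero_lt_one (one_le_DL (M + 1) h0 ?_ ?_)
      · rw [rk_empty]; omega
      · rw [hs]; omega
    have h2 : C * U p s (k + 1) g ∅ < U p s 1 (U p s (k + 1) g) ∅ := by
      rw [U_U, U_apply, mul_sum]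
      rw [U_apply] at hpos
      obtain ⟨H, hH, hHpos⟩ := Finset.exists_ne_zero_of_sum_ne_zero hpos.ne'
      have hle : ∀ G ∈ (facesR p s (k + 1)).filter (fun H => ∅ ⊆ H),
          C < ((mid p s ∅ G 1).card : ℝ) := by
        intro G hG
        rw [mem_filter] at hG
        have hG' := mem_facesR.1 hG.1
        have hmid : mid p s ∅ G 1 = facesR p G 1 := by
          ext H
          rw [mem_mid, facesR_restrict hG'.1, mem_facesR]
          simp
        rw [hmid]
        refine lt_of_le_of_lt hN ?_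
        exact_mod_cast hcon G hG.1
      refine Finset.sum_lt_sum (fun G hG => mul_le_mul_of_nonneg_right (hle G hG).le (hg G))
        ⟨H, hH, mul_lt_mul_of_pos_right (hle H hH) (lt_of_le_of_ne (hg H) (Ne.symm hHpos))⟩
    exact absurd h1 (not_le.2 (lt_of_lt_of_le h2 f))

end Pool.Agent.KF.E
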