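import Pool.Agent.KF.E.Flag

/-!
MP_716236_co, part E: from the inequality `f_k ≤ (k+2) f_{k+1}` in dimension `2k+1` to the finite
list of unavoidable `k`-faces.
-/

set_option autoImplicit false
set_option linter.unusedSectionVars false

namespace Pool.Agent.KF.E

open Finset Submodule Pool.Agent.Lib_helper40.Kal

theorem final (hWU : WU) :
    ∀ k : ℕ, ∃ (m : ℕ) (Q : Fin m → Set (EuclideanSpace ℝ (Fin k))),
      (∀ i, (∃ S : Finset (EuclideanSpace ℝ (Fin k)),
              Q i = convexHull ℝ (S : Set (EuclideanSpace ℝ (Fin k)))) ∧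
            Module.finrank ℝ (vectorSpan ℝ (Q i)) = k) ∧
      ∃ d : ℕ, k < d ∧ ∀ P : Set (EuclideanSpace ℝ (Fin d)),
        (∃ S : Finset (EuclideanSpace ℝ (Fin d)),
            P = convexHull ℝ (S : Set (EuclideanSpace ℝ (Fin d)))) →
        Module.finrank ℝ (vectorSpan ℝ P) = d →
        ∃ F : Set (EuclideanSpace ℝ (Fin d)), IsExposed ℝ P F ∧ F.Nonempty ∧
          Module.finrank ℝ (vectorSpan ℝ F) = k ∧
          ∃ i : Fin m, Nonempty
            ({G : Set (EuclideanSpace ℝ (Fin d)) | IsExposed ℝ F G} ≃o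
             {G : Set (EuclideanSpace ℝ (Fin k)) | IsExposed ℝ (Q i) G}) := by
  classical
  intro k
  obtain ⟨N, n, hn, hsmall⟩ := exists_small_face hWU k
  obtain ⟨m, Q, hQ, hlist⟩ := exists_list k N
  obtain ⟨d, rfl⟩ : ∃ d, n = d + 1 := ⟨n - 1, by omega⟩
  refine ⟨m, Q, hQ, d, by omega, ?_⟩
  rintro P ⟨S, rfl⟩ hP
  have hPS : hull (id : EuclideanSpace ℝ (Fin d) → _) S = convexHull ℝ (S : Set _) := by
    unfold hull; rw [Set.image_id]
  rw [← hPS] at hP
  have hS : S.Nonempty := by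
    rw [nonempty_iff_ne_empty]
    rintro rfl
    unfold hull at hP
    rw [coe_empty, Set.image_empty, convexHull_empty, vectorSpan_empty, finrank_bot] at hP
    omega
  have hrk := rk_hom (x := (id : EuclideanSpace ℝ (Fin d) → _)) hS
  have h0 := hom_pointed (id : EuclideanSpace ℝ (Fin d) → _) S
  obtain ⟨K, hK, hcard⟩ := hsmall _ _ (hom (id : EuclideanSpace ℝ (Fin d) → _)) S h0
    (by rw [hrk, hP])
  rw [mem_facesR] at hK
  have hKne : K.Nonempty := rk_pos_nonempty (p := hom (id : EuclideanSpace ℝ (Fin d) → _))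
    (by omega)
  have hKd : Module.finrank ℝ (vectorSpan ℝ (hull (id : EuclideanSpace ℝ (Fin d) → _) K)) = k := by
    have := rk_hom (x := (id : EuclideanSpace ℝ (Fin d) → _)) hKne
    omega
  refine ⟨hull id K, ?_, hull_nonempty_iff.2 hKne, hKd, ?_⟩
  · rw [← hPS]
    exact exposed_of_isFace hK.1
  · obtain ⟨i, hi⟩ := hlist _ _ (id : EuclideanSpace ℝ (Fin d) → _) K hKne hKd hcard
    exact ⟨i, hi⟩

end Pool.Agent.KF.E
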