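import Pool.Agent.KF.E.Flag

/-!
Explicit form of the small face theorem: for `k ≥ 1` every pointed family of rank
`≥ k (k + 3) / 2 + 1` has a face of rank `k + 1` with at most `cc k` complete flags.
-/

set_option autoImplicit false
set_option linter.unusedSectionVars false

namespace Pool.Agent.KF.E

open Finset Submodule Pool.Agent.Lib_helper40.Kal

variable {ι : Type} [DecidableEq ι] {V : Type} [AddCommGroup V] [Module ℝ V]

/-- `c_0 = 1`, `c_{k+1} = (k+2) c_k^2`. -/
def cc : ℕ → ℕ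
  | 0 => 1
  | k + 1 => (k + 2) * cc k ^ 2

/-- the triangular numbers `k (k + 1) / 2` -/
def tri : ℕ → ℕ
  | 0 => 0
  | k + 1 => tri k + (k + 1)

lemma two_tri (k : ℕ) : 2 * tri k = k * (k + 1) := by
  induction k with
  | zero => rfl
  | succ k ih => rw [tri, mul_add, ih]; ring

/-- `A(k)` with an explicit constant, for families of rank `k + m + 1` -/
def AC (C : ℕ) (k m : ℕ) : Prop := ∀ (ι : Type) [DecidableEq ι] (V : Type)
  [AddCommGroup V] [Module ℝ V] (p : ι → V) (s : Finset ι), IsFace p s ∅ →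
    rk p s = k + m + 1 →
    DL p s (List.range' 1 (k + m)) (fun _ => 1) ∅ ≤
      C * DL p s (List.range' (k + 1) m) (fun _ => 1) ∅

lemma AC_zero (m : ℕ) : AC 1 0 m := by
  intro ι _ V _ _ p s _ _
  rw [Nat.cast_one, one_mul, zero_add, zero_add]

lemma AC_step (hWU : WU) {k m C C' : ℕ} (h1 : AC C k (k + 1 + (m + 1))) (h2 : AC C' k (m + 1)) :
    AC ((k + 2) * (C * C')) (k + 1) (k + (m + 1)) := by
  intro ι _ V _ _ p s h0 hs
  have e1 := h1 ι V p s h0 (by omega)
  have e2 : k + 1 + (k + (m + 1)) = k + (k + 1 + (m + 1)) := by ring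
  rw [e2]
  refine e1.trans ?_
  have e3 : k + 1 + (m + 1) = (k + (m + 1)) + 1 := by ring
  rw [e3, List.range'_succ, DL_cons]
  -- quotient step
  have q : U p s (k + 1) (DL p s (List.range' (k + 1 + 1) (k + (m + 1))) fun _ => 1) ∅ ≤
      U p s (k + 1) (fun F => C' * DL p s (List.range' (2 * k + 2) (m + 1)) (fun _ => 1) F) ∅ := by
    apply U_mono
    intro F hF _
    have hF' := mem_facesR.1 hF
    have h3 := h2 ι (V ⧸ span ℝ (p '' (F : Set ι))) (qf p F) (s \ F)
      (pointed_interval hF'.1 (isFace_self p s) hF'.1.1) (by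
        have := rk_interval (p := p) hF'.1.1
        rw [hF'.2, hs] at this
        omega)
    rw [DL_quot_range hF, DL_quot_range hF] at h3
    have e4 : k + 1 + (k + 1) = 2 * k + 2 := by ring
    rw [e4] at h3
    exact h3
  rw [U_smul'] at q
  set g := DL p s (List.range' (2 * k + 3) m) (fun _ => (1 : ℝ)) with hgdef
  have hg : ∀ F, 0 ≤ g F := fun F => DL_nn (fun _ => zero_le_one) _ F
  have e5 : DL p s (List.range' (2 * k + 2) (m + 1)) (fun _ => (1 : ℝ)) = U p s (2 * k + 2) g := by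
    rw [List.range'_succ, DL_cons]
  rw [e5] at q
  have w := wu_step hWU (k := k) h0 hg
  have f := fill (p := p) (s := s) k (F := ∅) (a := k + 2) (g := g) h0
    (by rw [rk_empty]; omega) hg
  have e6 : k + 2 + k = 2 * k + 2 := by ring
  rw [e6] at f
  have e7 : DL p s (List.range' (k + 2) k) (U p s (2 * k + 2) g) =
      DL p s (List.range' (k + 1 + 1) (k + (m + 1))) (fun _ => 1) := by
    rw [← e5, ← DL_append]
    congr 1
    rw [← e6, List.range'_append_1]
  rw [e7] at f
  have hC : (0 : ℝ) ≤ C := Nat.cast_nonneg _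
  have hC' : (0 : ℝ) ≤ C' := Nat.cast_nonneg _
  calc (C : ℝ) * U p s (k + 1) (DL p s (List.range' (k + 1 + 1) (k + (m + 1))) fun _ => 1) ∅
      ≤ C * (C' * U p s (k + 1) (U p s (2 * k + 2) g) ∅) := mul_le_mul_of_nonneg_left q hC
    _ ≤ C * (C' * ((k + 2 : ℝ) * U p s (k + 2) (U p s (2 * k + 2) g) ∅)) :=
        mul_le_mul_of_nonneg_left (mul_le_mul_of_nonneg_left w hC') hC
    _ ≤ C * (C' * ((k + 2 : ℝ) *
          DL p s (List.range' (k + 1 + 1) (k + (m + 1))) (fun _ => 1) ∅)) := by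
        refine mul_le_mul_of_nonneg_left (mul_le_mul_of_nonneg_left
          (mul_le_mul_of_nonneg_left f (by positivity)) hC') hC
    _ = _ := by push_cast; ring

theorem AC_all (hWU : WU) (k : ℕ) : ∀ m, tri k ≤ m → AC (cc k) k m := by
  induction k with
  | zero => exact fun m _ => AC_zero m
  | succ k ih =>
    intro m hm
    rw [tri] at hm
    obtain ⟨m', rfl⟩ : ∃ m', m = k + (m' + 1) := ⟨m - k - 1, by omega⟩
    have := AC_step hWU (ih (k + 1 + (m' + 1)) (by omega)) (ih (m' + 1) (by omega))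
    rw [cc, pow_two]
    exact this

variable {p : ι → V} {s : Finset ι}

/-- decomposition of a chain operator along the last face -/
lemma DL_U (b : ℕ) (g : Finset ι → ℝ) (L : List ℕ) : ∀ F : Finset ι,
    DL p s L (U p s b g) F =
      ∑ G ∈ (facesR p s b).filter (fun H => F ⊆ H), DL p G L (fun _ => 1) F * g G := by
  induction L with
  | nil =>
    intro F
    rw [DL_nil, U_apply]
    exact sum_congr rfl fun G _ => by rw [DL_nil, one_mul]
  | cons r L ih =>
    intro F
    rw [DL_cons, U_apply, sum_congr rfl fun H _ => ih H, sum_sigma']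
    have e : ∀ G ∈ (facesR p s b).filter (fun H => F ⊆ H), DL p G (r :: L) (fun _ => 1) F * g G =
        ∑ H ∈ (facesR p G r).filter (fun H => F ⊆ H), DL p G L (fun _ => 1) H * g G := by
      intro G _
      rw [DL_cons, U_apply, sum_mul]
    rw [sum_congr rfl e, sum_sigma']
    apply sum_bij' (fun x _ => (⟨x.2, x.1⟩ : (_ : Finset ι) × Finset ι))
      (fun x _ => (⟨x.2, x.1⟩ : (_ : Finset ι) × Finset ι))
    · rintro ⟨H, G⟩ hx
      simp only [mem_sigma, mem_filter, mem_facesR] at hx ⊢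
      obtain ⟨⟨⟨h1, h2⟩, h3⟩, ⟨h4, h5⟩, h6⟩ := hx
      exact ⟨⟨⟨h4, h5⟩, h3.trans h6⟩, ⟨(isFace_restrict h4).2 ⟨h1, h6⟩, h2⟩, h3⟩
    · rintro ⟨G, H⟩ hx
      simp only [mem_sigma, mem_filter, mem_facesR] at hx ⊢
      obtain ⟨⟨⟨h1, h2⟩, h3⟩, ⟨h4, h5⟩, h6⟩ := hx
      have := (isFace_restrict h1).1 h4
      exact ⟨⟨⟨this.1, h5⟩, h6⟩, ⟨h1, h2⟩, this.2⟩
    · rintro ⟨H, G⟩ _; rfl
    · rintro ⟨G, H⟩ _; rfl
    · rintro ⟨H, G⟩ _; rfl

/-- a polytope of dimension `k` has at least `(k+1)!` complete flags -/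
lemma fact_le_DL (k : ℕ) : ∀ (ι : Type) [DecidableEq ι] (V : Type) [AddCommGroup V] [Module ℝ V]
    (p : ι → V) (s : Finset ι), IsFace p s ∅ → rk p s = k + 1 →
    ((k + 1).factorial : ℝ) ≤ DL p s (List.range' 1 k) (fun _ => 1) ∅ := by
  induction k with
  | zero =>
    intro ι _ V _ _ p s _ _
    rw [List.range'_zero, DL_nil]
    norm_num
  | succ k ih =>
    intro ι _ V _ _ p s h0 hs
    rw [List.range'_succ, DL_cons, U_apply]
    have h1 : ∀ R ∈ (facesR p s 1).filter (fun H => ∅ ⊆ H),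
        ((k + 1).factorial : ℝ) ≤ DL p s (List.range' (1 + 1) k) (fun _ => 1) R := by
      intro R hR
      rw [mem_filter] at hR
      have hR' := mem_facesR.1 hR.1
      have h3 := ih ι (V ⧸ span ℝ (p '' (R : Set ι))) (qf p R) (s \ R)
        (pointed_interval hR'.1 (isFace_self p s) hR'.1.1) (by
          have := rk_interval (p := p) hR'.1.1
          rw [hR'.2, hs] at this
          omega)
      rwa [DL_quot_range hR.1] at h3
    refine le_trans ?_ (card_nsmul_le_sum _ _ _ h1)
    have h2 := rk_le_card_rays h0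
    rw [hs] at h2
    have h3 : (facesR p s 1).filter (fun H => ∅ ⊆ H) = facesR p s 1 :=
      filter_true_of_mem fun _ _ => empty_subset _
    rw [h3, Nat.factorial_succ (k + 1), nsmul_eq_mul, Nat.cast_mul]
    exact mul_le_mul_of_nonneg_right (by exact_mod_cast h2) (Nat.cast_nonneg _)

/-- number of faces of rank `j` against the number of complete flags -/
lemma card_mul_fact_le (k j : ℕ) (h0 : IsFace p s ∅) (hs : rk p s = k + 1) (hj : 1 ≤ j)
    (hjk : j ≤ k) : ((facesR p s j).card : ℝ) * (j.factorial * (k + 1 - j).factorial : ℕ) ≤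
      DL p s (List.range' 1 k) (fun _ => 1) ∅ := by
  obtain ⟨a, rfl⟩ : ∃ a, j = a + 1 := ⟨j - 1, by omega⟩
  obtain ⟨b, rfl⟩ : ∃ b, k = a + (b + 1) := ⟨k - a - 1, by omega⟩
  have e1 : DL p s (List.range' 1 (a + (b + 1))) (fun _ => (1 : ℝ)) =
      DL p s (List.range' 1 a) (U p s (a + 1)
        (DL p s (List.range' (a + 1 + 1) b) (fun _ => (1 : ℝ)))) := by
    rw [← DL_cons, ← List.range'_succ, ← DL_append, add_comm a 1, List.range'_append_1]
  have e2 : a + (b + 1) + 1 - (a + 1) = b + 1 := by omega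
  rw [e1, DL_U, e2]
  have h3 : (facesR p s (a + 1)).filter (fun H => ∅ ⊆ H) = facesR p s (a + 1) :=
    filter_true_of_mem fun _ _ => empty_subset _
  rw [h3, ← nsmul_eq_mul]
  apply card_nsmul_le_sum
  intro G hG
  have hG' := mem_facesR.1 hG
  have h4 := fact_le_DL a ι V p G ((isFace_restrict hG'.1).2 ⟨h0, empty_subset _⟩) hG'.2
  have h5 := fact_le_DL b ι (V ⧸ span ℝ (p '' (G : Set ι))) (qf p G) (s \ G)
    (pointed_interval hG'.1 (isFace_self p s) hG'.1.1) (by
      have := rk_interval (p := p) hG'.1.1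
      rw [hG'.2, hs] at this
      omega)
  rw [DL_quot_range hG] at h5
  rw [Nat.cast_mul]
  exact mul_le_mul h4 h5 (Nat.cast_nonneg _) (DL_nn (fun _ => zero_le_one) _ _)

/-- a face of rank `k+1` with few complete flags -/
theorem exists_small_flags (hWU : WU) {k : ℕ} (hk : 1 ≤ k) {n : ℕ} (hn : k + tri k + 1 ≤ n)
    (h0 : IsFace p s ∅) (hs : rk p s = n) :
    ∃ H ∈ facesR p s (k + 1), DL p H (List.range' 1 k) (fun _ => 1) ∅ ≤ cc k := by
  have ht : 1 ≤ tri k := by
    obtain ⟨k', rfl⟩ : ∃ k', k = k' + 1 := ⟨k - 1, by omega⟩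
    rw [tri]; omega
  obtain ⟨M, rfl⟩ : ∃ M, n = k + (M + 1) + 1 := ⟨n - k - 2, by omega⟩
  have h1 := AC_all hWU k (M + 1) (by omega) ι V p s h0 hs
  by_contra hcon
  push Not at hcon
  set g := DL p s (List.range' (k + 2) M) (fun _ => (1 : ℝ)) with hgdef
  have hg : ∀ F, 0 ≤ g F := fun F => DL_nn (fun _ => zero_le_one) _ F
  have e1 : DL p s (List.range' (k + 1) (M + 1)) (fun _ => (1 : ℝ)) = U p s (k + 1) g := by
    rw [List.range'_succ, DL_cons]
  have e2 : DL p s (List.range' 1 (k + (M + 1))) (fun _ => (1 : ℝ)) =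
      DL p s (List.range' 1 k) (U p s (k + 1) g) := by
    rw [← e1, ← DL_append]
    congr 1
    rw [add_comm k 1, List.range'_append_1]
  rw [e2, e1, DL_U] at h1
  have hpos : 0 < U p s (k + 1) g ∅ := by
    rw [← e1]
    refine lt_of_lt_of_le zero_lt_one (one_le_DL (M + 1) h0 ?_ ?_)
    · rw [rk_empty]; omega
    · rw [hs]; omega
  rw [U_apply] at hpos h1
  rw [mul_sum] at h1
  obtain ⟨H, hH, hHpos⟩ := Finset.exists_ne_zero_of_sum_ne_zero hpos.ne'
  have hle : ∀ G ∈ (facesR p s (k + 1)).filter (fun H => ∅ ⊆ H),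
      (cc k : ℝ) < DL p G (List.range' 1 k) (fun _ => 1) ∅ := fun G hG =>
    hcon G (mem_filter.1 hG).1
  refine absurd h1 (not_le.2 (Finset.sum_lt_sum
    (fun G hG => mul_le_mul_of_nonneg_right (hle G hG).le (hg G))
    ⟨H, hH, mul_lt_mul_of_pos_right (hle H hH) (lt_of_le_of_ne (hg H) (Ne.symm hHpos))⟩))

/-- chains of faces of prescribed ranks, above `F` -/
noncomputable def CH (p : ι → V) (s : Finset ι) : List ℕ → Finset ι → Finset (List (Finset ι))
  | [], _ => {[]}
  | r :: L, F => ((facesR p s r).filter (fun H => F ⊆ H)).biUnion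
      fun H => (CH p s L H).image (fun l => H :: l)

lemma card_CH (L : List ℕ) : ∀ F : Finset ι,
    ((CH p s L F).card : ℝ) = DL p s L (fun _ => 1) F := by
  induction L with
  | nil =>
    intro F
    rw [CH, DL_nil, card_singleton, Nat.cast_one]
  | cons r L ih =>
    intro F
    rw [CH, DL_cons, U_apply, card_biUnion]
    · rw [Nat.cast_sum]
      refine sum_congr rfl fun H _ => ?_
      rw [card_image_of_injective _ (List.cons_injective), ih]
    · intro H _ H' _ hne
      rw [Function.onFun, disjoint_left]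
      intro l hl hl'
      rw [mem_image] at hl hl'
      obtain ⟨l1, _, rfl⟩ := hl
      obtain ⟨l2, _, h2⟩ := hl'
      exact hne (List.cons.inj h2).1.symm

lemma mem_CH (n : ℕ) : ∀ (a : ℕ) (ψ : ℕ → Finset ι) (F : Finset ι),
    (∀ i, i < n → ψ i ∈ facesR p s (a + i)) → (∀ i, i + 1 < n → ψ i ⊆ ψ (i + 1)) →
    (0 < n → F ⊆ ψ 0) → (List.range n).map ψ ∈ CH p s (List.range' a n) F := by
  induction n with
  | zero =>
    intro a ψ F _ _ _
    rw [List.range_zero, List.map_nil, List.range'_zero, CH, mem_singleton]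
  | succ n ih =>
    intro a ψ F h1 h2 h3
    rw [List.range_succ_eq_map, List.map_cons, List.map_map, List.range'_succ, CH, mem_biUnion]
    refine ⟨ψ 0, ?_, ?_⟩
    · rw [mem_filter]
      exact ⟨h1 0 (by omega), h3 (by omega)⟩
    · rw [mem_image]
      refine ⟨_, ih (a + 1) (ψ ∘ Nat.succ) (ψ 0) ?_ ?_ ?_, rfl⟩
      · intro i hi
        have := h1 (i + 1) (by omega)
        rwa [← add_assoc, add_right_comm] at this
      · intro i hi
        exact h2 (i + 1) (by omega)
      · intro hn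
        exact h2 0 (by omega)

/-- a face of rank `k+1` with few complete flags, and few faces of each rank -/
theorem exists_small_faces (hWU : WU) (k : ℕ) {n : ℕ} (hn : k + tri k + 1 ≤ n)
    (h0 : IsFace p s ∅) (hs : rk p s = n) :
    ∃ H ∈ facesR p s (k + 1), (CH p H (List.range' 1 k) ∅).card ≤ cc k ∧
      ∀ j, 1 ≤ j → j ≤ k + 1 →
      (facesR p H j).card * (j.factorial * (k + 1 - j).factorial) ≤ cc k := by
  obtain ⟨H, hH, hHc⟩ : ∃ H ∈ facesR p s (k + 1),
      DL p H (List.range' 1 k) (fun _ => 1) ∅ ≤ cc k := by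
    rcases Nat.eq_zero_or_pos k with rfl | hk
    · obtain ⟨H, hH, -, hHr⟩ := exists_face_rk h0 1 (by rw [rk_empty]; omega) (by omega)
      refine ⟨H, mem_facesR.2 ⟨hH, hHr⟩, ?_⟩
      rw [List.range'_zero, DL_nil, cc, Nat.cast_one]
    · exact exists_small_flags hWU hk hn h0 hs
  have hH' := mem_facesR.1 hH
  have h0H := (isFace_restrict hH'.1).2 ⟨h0, empty_subset _⟩
  refine ⟨H, hH, ?_, fun j hj hjk => ?_⟩
  · rw [← card_CH] at hHc
    exact_mod_cast hHc
  rcases Nat.lt_or_ge k j with h | h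
  · obtain rfl : j = k + 1 := by omega
    have h1 := (fact_le_DL k ι V p H h0H hH'.2).trans hHc
    have h2 : facesR p H (k + 1) = {H} := by
      have := facesR_top (p := p) (s := H)
      rwa [hH'.2] at this
    rw [h2, card_singleton, one_mul, Nat.sub_self, Nat.factorial_zero, mul_one]
    exact_mod_cast h1
  · have h1 := (card_mul_fact_le k j h0H hH'.2 hj h).trans hHc
    exact_mod_cast h1

end Pool.Agent.KF.E
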