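import Pool.Agent.KF.E.Small

/-!
The explicit small face theorem for convex polytopes in Euclidean space.
-/

set_option autoImplicit false
set_option linter.unusedSectionVars false

namespace Pool.Agent.KF.E

open Finset Submodule Pool.Agent.Lib_helper40.Kal

theorem smallFace (hWU : WU) (k : ℕ) :
    ∃ (m : ℕ) (Q : Fin m → Set (EuclideanSpace ℝ (Fin k))),
      (∀ i, (∃ S : Finset (EuclideanSpace ℝ (Fin k)),
              Q i = convexHull ℝ (S : Set (EuclideanSpace ℝ (Fin k)))) ∧
            Module.finrank ℝ (vectorSpan ℝ (Q i)) = k) ∧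
      ∀ (n : ℕ) (S : Finset (EuclideanSpace ℝ (Fin n))), S.Nonempty →
        k * (k + 3) ≤ 2 * Module.finrank ℝ (vectorSpan ℝ
          (convexHull ℝ (S : Set (EuclideanSpace ℝ (Fin n))))) →
        ∃ F : Set (EuclideanSpace ℝ (Fin n)),
          IsExposed ℝ (convexHull ℝ (S : Set (EuclideanSpace ℝ (Fin n)))) F ∧ F.Nonempty ∧
          Module.finrank ℝ (vectorSpan ℝ F) = k ∧
          ({φ : Fin k → Set (EuclideanSpace ℝ (Fin n)) | Monotone φ ∧ ∀ i, IsExposed ℝ F (φ i) ∧
              (φ i).Nonempty ∧ Module.finrank ℝ (vectorSpan ℝ (φ i)) = i}.Finite ∧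
            {φ : Fin k → Set (EuclideanSpace ℝ (Fin n)) | Monotone φ ∧ ∀ i, IsExposed ℝ F (φ i) ∧
              (φ i).Nonempty ∧ Module.finrank ℝ (vectorSpan ℝ (φ i)) = i}.ncard ≤ cc k) ∧
          (∀ r : ℕ, r ≤ k →
            {G : Set (EuclideanSpace ℝ (Fin n)) | IsExposed ℝ F G ∧ G.Nonempty ∧
              Module.finrank ℝ (vectorSpan ℝ G) = r}.Finite ∧
            {G : Set (EuclideanSpace ℝ (Fin n)) | IsExposed ℝ F G ∧ G.Nonempty ∧
              Module.finrank ℝ (vectorSpan ℝ G) = r}.ncard *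
                ((r + 1).factorial * (k - r).factorial) ≤ cc k) ∧
          ∃ i : Fin m, Nonempty
            ({G : Set (EuclideanSpace ℝ (Fin n)) | IsExposed ℝ F G} ≃o
             {G : Set (EuclideanSpace ℝ (Fin k)) | IsExposed ℝ (Q i) G}) := by
  classical
  obtain ⟨m, Q, hQ, hlist⟩ := exists_list k (cc k)
  refine ⟨m, Q, hQ, ?_⟩
  intro n S hSne hd
  have hPS : hull (id : EuclideanSpace ℝ (Fin n) → _) S = convexHull ℝ (S : Set _) := by
    unfold hull; rw [Set.image_id]
  rw [← hPS] at hd ⊢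
  obtain ⟨d, hP⟩ : ∃ d, Module.finrank ℝ
    (vectorSpan ℝ (hull (id : EuclideanSpace ℝ (Fin n) → _) S)) = d := ⟨_, rfl⟩
  rw [hP] at hd
  have hrk := rk_hom (x := (id : EuclideanSpace ℝ (Fin n) → _)) hSne
  have h0 := hom_pointed (id : EuclideanSpace ℝ (Fin n) → _) S
  have ht := two_tri k
  have hd' : k + tri k ≤ d := by
    have e : k * (k + 3) = 2 * k + k * (k + 1) := by ring
    omega
  obtain ⟨K, hK, hflag, hcard⟩ := exists_small_faces hWU k (n := d + 1) (by omega) h0
    (by rw [hrk, hP])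
  rw [mem_facesR] at hK
  have hKne : K.Nonempty := rk_pos_nonempty (p := hom (id : EuclideanSpace ℝ (Fin n) → _))
    (by omega)
  have hKd : Module.finrank ℝ (vectorSpan ℝ (hull (id : EuclideanSpace ℝ (Fin n) → _) K)) = k := by
    have := rk_hom (x := (id : EuclideanSpace ℝ (Fin n) → _)) hKne
    omega
  have hidx : ∀ (r : ℕ) (G : Set (EuclideanSpace ℝ (Fin n))),
      IsExposed ℝ (hull (id : EuclideanSpace ℝ (Fin n) → _) K) G → G.Nonempty →
      Module.finrank ℝ (vectorSpan ℝ G) = r →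
      idx (id : EuclideanSpace ℝ (Fin n) → _) K G ∈
        facesR (hom (id : EuclideanSpace ℝ (Fin n) → _)) K (r + 1) ∧
      G = hull (id : EuclideanSpace ℝ (Fin n) → _)
        (idx (id : EuclideanSpace ℝ (Fin n) → _) K G) := by
    intro r G h2 h1 h3
    obtain ⟨h4, h5⟩ := isFace_of_exposed h2
    refine ⟨?_, h5⟩
    rw [mem_facesR]
    refine ⟨h4, ?_⟩
    have h6 : (idx (id : EuclideanSpace ℝ (Fin n) → _) K G).Nonempty := by
      rw [← hull_nonempty_iff (x := (id : EuclideanSpace ℝ (Fin n) → _)), ← h5]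
      exact h1
    rw [rk_hom h6, ← h5, h3]
  refine ⟨hull id K, exposed_of_isFace hK.1, hull_nonempty_iff.2 hKne, hKd, ?_, ?_, ?_⟩
  · -- complete flags
    let code : (Fin k → Set (EuclideanSpace ℝ (Fin n))) → List (Finset (EuclideanSpace ℝ (Fin n))) :=
      fun φ => (List.range k).map (fun i => if h : i < k then
        idx (id : EuclideanSpace ℝ (Fin n) → _) K (φ ⟨i, h⟩) else ∅)
    set A := {φ : Fin k → Set (EuclideanSpace ℝ (Fin n)) | Monotone φ ∧ ∀ i,
      IsExposed ℝ (hull (id : EuclideanSpace ℝ (Fin n) → _) K) (φ i) ∧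
              (φ i).Nonempty ∧ Module.finrank ℝ (vectorSpan ℝ (φ i)) = i} with hA
    have hmem : Set.MapsTo code A
        (CH (hom (id : EuclideanSpace ℝ (Fin n) → _)) K (List.range' 1 k) ∅ : Set _) := by
      rintro φ ⟨hm, hφ⟩
      rw [mem_coe]
      apply mem_CH
      · intro i hi
        rw [dif_pos hi, add_comm 1 i]
        exact (hidx i _ (hφ ⟨i, hi⟩).1 (hφ ⟨i, hi⟩).2.1 (hφ ⟨i, hi⟩).2.2).1
      · intro i hi
        rw [dif_pos hi, dif_pos (by omega : i < k)]
        have h1 : φ ⟨i, by omega⟩ ≤ φ ⟨i + 1, hi⟩ := hm (by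
          rw [Fin.mk_le_mk]; omega)
        intro v hv
        unfold idx at hv ⊢
        rw [mem_filter] at hv ⊢
        exact ⟨hv.1, h1 hv.2⟩
      · intro _
        exact empty_subset _
    have hinj : Set.InjOn code A := by
      rintro φ ⟨_, hφ⟩ φ' ⟨_, hφ'⟩ he
      funext i
      have h1 := List.map_inj_left.1 he i (List.mem_range.2 i.2)
      rw [dif_pos i.2, dif_pos i.2] at h1
      have h2 := (hidx i _ (hφ i).1 (hφ i).2.1 (hφ i).2.2).2
      have h3 := (hidx i _ (hφ' i).1 (hφ' i).2.1 (hφ' i).2.2).2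
      rw [h2, h3]
      exact congrArg _ h1
    refine ⟨Set.Finite.of_injOn hmem hinj (Finset.finite_toSet _), ?_⟩
    have h1 := Set.ncard_le_ncard_of_injOn code hmem hinj (Finset.finite_toSet _)
    rw [Set.ncard_coe_finset] at h1
    exact h1.trans hflag
  · intro r hr
    have key : {G : Set (EuclideanSpace ℝ (Fin n)) |
        IsExposed ℝ (hull (id : EuclideanSpace ℝ (Fin n) → _) K) G ∧ G.Nonempty ∧
        Module.finrank ℝ (vectorSpan ℝ G) = r} ⊆
        ((facesR (hom (id : EuclideanSpace ℝ (Fin n) → _)) K (r + 1)).image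
          (hull (id : EuclideanSpace ℝ (Fin n) → _)) : Finset (Set _)) := by
      rintro G ⟨h1, h2, h3⟩
      rw [coe_image]
      exact ⟨_, (hidx r G h1 h2 h3).1, (hidx r G h1 h2 h3).2.symm⟩
    refine ⟨(Finset.finite_toSet _).subset key, ?_⟩
    have h1 := Set.ncard_le_ncard key (Finset.finite_toSet _)
    rw [Set.ncard_coe_finset] at h1
    have h2 := hcard (r + 1) (by omega) (by omega)
    have e : k + 1 - (r + 1) = k - r := by omega
    rw [e] at h2
    exact (Nat.mul_le_mul_right _ (h1.trans Finset.card_image_le)).trans h2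
  · have hc : (facesR (hom (id : EuclideanSpace ℝ (Fin n) → _)) K 1).card ≤ cc k := by
      have h2 := hcard 1 le_rfl (by omega)
      rw [Nat.add_sub_cancel] at h2
      exact le_trans (Nat.le_mul_of_pos_right _ (Nat.mul_pos (Nat.factorial_pos _)
        (Nat.factorial_pos _))) h2
    obtain ⟨i, hi⟩ := hlist _ _ (id : EuclideanSpace ℝ (Fin n) → _) K hKne hKd hc
    exact ⟨i, hi⟩

end Pool.Agent.KF.E
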